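import Pool.Agent.KDS.StmtsB

set_option autoImplicit false

/-!
# KDD (MP_160b6c_nt): Kummer determinants, all places without triple roots (one or two double roots
modulo `v`). Complete proofs in the docstrings.

DELIVER: `Pool/Agent/HelperNN_KDD/XXX.lean`, `import Pool.Agent.KDD.Stmts`, namespace
`Pool.Agent.KDD.HNN`, theorem `xxx (hypotheses = the statements in the column uses, in this order) :
XxxStatement`. SZT, KDT and KDS statements are proved: a row may import a proof or take the statement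
as a hypothesis (named in uses). No straight double quotes, no `congr!`, `convert`, `native_decide`,
`notation`, `sorry`.

Blocks: P (positions at a twin = two close roots which are far from the other three: copies of the
SZT rows with `Node` replaced by `Twin`), E (exactness: no cancellation in the doubling), G (assembly).
-/

namespace Pool.Agent.KDD

open Polynomial NumberField H58Q Pool.Agent.SZT Pool.Agent.SZT.B Pool.Agent.KDT Pool.Agent.KDS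

/-- `f` has only simple and double roots modulo the finite place `v` (`v` not over 2): `f`, `f'`, `f''`
generate the unit ideal modulo `v`. -/
def CubeFree {K : Type} [Field K] (v : AbsoluteValue K ℝ) (f : K[X]) : Prop :=
  v 2 = 1 ∧ (∀ n, v (f.coeff n) ≤ 1) ∧ ∃ a b c : K[X],
    (∀ n, v (a.coeff n) ≤ 1 ∧ v (b.coeff n) ≤ 1 ∧ v (c.coeff n) ≤ 1) ∧
    ∀ n, v ((a * f + b * derivative f + c * derivative (derivative f) - 1).coeff n) < 1

/-- **KDD.** The theorem. -/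
def KddStatement : Prop :=
  ∀ (d : ℕ) (ε : ℝ), 0 < ε → ∃ B : ℕ, ∀ (K : Type) [Field K] [NumberField K],
    Module.finrank ℚ K ≤ d → ∀ (Y : UBT.OddCurve K), Y.f.Monic → Y.f.natDegree = 5 →
    (∀ n, IsIntegral ℤ (Y.f.coeff n)) →
    ∀ S : Finset (FinitePlace K), (∀ v ∈ S, CubeFree v.val Y.f ∧ v (discr Y.f) < 1) →
    ε * lH Y.f ≤ ∑ v ∈ S, Real.log (Ideal.absNorm v.maximalIdeal.asIdeal) →
    (∀ c : Y.Jac, IsOfFinOrder c → orderOf c ≤ B) ∨ Thin B Y.f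

/-! ## Block P: positions at a twin -/

/-- `θ 0`, `θ 1` are close, the other three roots are at distance 1 from them (no condition on the
distances of the other three). -/
structure Twin {L : Type} [NormedField L] (f : L[X]) (θ : Fin 5 → L) : Prop where
  two : ‖(2 : L)‖ = 1
  fac : f = ∏ i, (X - C (θ i))
  int : ∀ i, ‖θ i‖ ≤ 1
  inj : Function.Injective θ
  near : ‖θ 0 - θ 1‖ < 1
  far : ∀ k, k ≠ 0 → k ≠ 1 → ‖θ k - θ 0‖ = 1

/-- **Row TND** (copy of the first parts of SZT NOD, `Helper81_SZT/NOD.lean`). `‖θ k - θ 1‖ = 1` for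
`k ≥ 2` by `near` and `far`. -/
def TndStatement : Prop :=
  ∀ (L : Type) [NormedField L] [IsUltrametricDist L] (f : L[X]) (θ : Fin 5 → L), Twin f θ →
    (eta θ ≠ 0 ∧ ‖eta θ‖ < 1 ∧ ‖ctr θ‖ ≤ 1) ∧
    (PInt (hh θ) ∧ ‖(hh θ).coeff 0‖ = 1 ∧ ∀ z : L, ‖z‖ < 1 → ‖(hh θ).eval z‖ = 1) ∧
    (∀ z : L, f.eval (ctr θ + z) = (z ^ 2 - eta θ) * (hh θ).eval z) ∧
    (PInt f ∧ f.Monic ∧ f.natDegree = 5)

/-- **Row TCH** (the chart; uses TND; copy of SZT CHT, `Helper18_SZT/CHT.lean`). -/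
def TchStatement : Prop :=
  ∀ (L : Type) [NormedField L] [IsUltrametricDist L] [CompleteSpace L] (f : L[X])
    (θ : Fin 5 → L) (s : ℕ → L), Twin f θ → Sq (hh θ) s →
    (∀ X : L, Ann ‖eta θ‖ X → ‖(X + eta θ / X) / 2‖ < 1 ∧ yy θ s X ^ 2 = f.eval (xx θ X) ∧
      ‖yy θ s X‖ = ‖X - eta θ / X‖ ∧ crd θ s (xx θ X) (yy θ s X) = X ∧
      Ann ‖eta θ‖ (eta θ / X) ∧ xx θ (eta θ / X) = xx θ X ∧ yy θ s (eta θ / X) = -yy θ s X ∧
      pos ‖eta θ‖ (eta θ / X) = 1 - pos ‖eta θ‖ X ∧ ‖xx θ X‖ ≤ 1 ∧ ‖xx θ X - ctr θ‖ < 1) ∧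
    (∀ a y : L, y ^ 2 = f.eval a → ‖a - ctr θ‖ < 1 → Ann ‖eta θ‖ (crd θ s a y) ∧
      xx θ (crd θ s a y) = a ∧ yy θ s (crd θ s a y) = y ∧
      crd θ s a (-y) = eta θ / crd θ s a y) ∧
    ∀ X X' : L, X ≠ 0 → X' ≠ 0 →
      xx θ X - xx θ X' = (X - X') * (1 - eta θ / (X * X')) / 2

/-- **Row TIU** (uses TND TCH; copy of SZT IMU, `Helper31_SZT/IMU.lean`). -/
def TiuStatement : Prop :=
  ∀ (K L : Type) [Field K] [NormedField L] [IsUltrametricDist L] [CompleteSpace L] (φ : K →+* L)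
    (f : K[X]) (θ : Fin 5 → L) (s : ℕ → L) (X₁ : L), Twin (f.map φ) θ → Sq (hh θ) s →
    Ann ‖eta θ‖ X₁ →
    (∀ (I J : Ideal (Q K f)) (m n : ℕ), IGr φ θ s I X₁ m → IGr φ θ s J X₁ n →
      IGr φ θ s (I * J) X₁ (m + n)) ∧ ∀ I : Ideal (Q K f), IGr φ θ s I X₁ 0

open scoped Classical in
/-- **Row TII** (uses SZT.B.Pmu SZT.B.Lip SZT.B.Exl TND TCH TIU; copy of SZT IMI,
`Helper18_SZT/IMI.lean`). -/
def TiiStatement : Prop :=
  ∀ (K L : Type) [Field K] [NormedField L] [IsUltrametricDist L] [CompleteSpace L] (φ : K →+* L)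
    (f A B : K[X]) (θ : Fin 5 → L) (s : ℕ → L) (X₁ : L), Twin (f.map φ) θ → Sq (hh θ) s →
    Ann ‖eta θ‖ X₁ → Mum f A B → (B.map φ).eval (xx θ X₁) = yy θ s X₁ →
    IGr φ θ s (MI f A B) X₁ ((A.map φ).roots.count (xx θ X₁))

/-- **Row TAD** (uses SZT.B.Slo SZT.B.Pmu SZT.B.Exl TND TCH SZT.B.Gau TIU TII; copy of SZT ADD,
`Helper47_SZT/ADD.lean`). -/
def TadStatement : Prop :=
  ∀ (K L : Type) [Field K] [NormedField L] [IsUltrametricDist L] [CompleteSpace L] (φ : K →+* L)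
    (f : K[X]) (θ : Fin 5 → L) (s : ℕ → L) (A B : Fin 3 → K[X]) (ψ : Q K f) (κ : K),
    Twin (f.map φ) θ → Sq (hh θ) s → (∀ i, Mum f (A i) (B i)) →
    (∀ i, ((A i).map φ).Splits) →
    MI f (A 0) (B 0) * MI f (A 1) (B 1) * MI f (A 2) (B 2) = Ideal.span {ψ} → κ ≠ 0 →
    ψ.re ^ 2 - f * ψ.im ^ 2 = C κ * (A 0 * A 1 * A 2) →
    ∃ k : ℤ, ∑ i : Fin 3, ss θ s ((A i).map φ) ((B i).map φ) = k

/-- **Row TKA** (uses TCH SZT.B.Inv SZT.B.Nrm SZT.B.Rep TAD; copy of SZT KAP,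
`Helper32_SZT/KAP.lean`). -/
def TkaStatement : Prop :=
  ∀ (K L : Type) [Field K] [NormedField L] [IsUltrametricDist L] [CompleteSpace L] (φ : K →+* L)
    (f : K[X]) (θ : Fin 5 → L) (s : ℕ → L), (2 : K) ≠ 0 → Squarefree f → f.natDegree = 5 →
    Twin (f.map φ) θ → Sq (hh θ) s → (∀ p : K[X], (p.map φ).Splits) →
    ∀ I : Ideal (Q K f), I ≠ ⊥ → ∃ (s₁ : ℝ) (A₁ B₁ : K[X]),
      Mum f A₁ B₁ ∧ A₁.natDegree ≤ 2 ∧ s₁ = ss θ s (A₁.map φ) (B₁.map φ) ∧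
      ∀ (k : ℕ) (A B : K[X]), Mum f A B → SameCl (MI f A B) (I ^ k) →
        ∃ j : ℤ, ss θ s (A.map φ) (B.map φ) = k * s₁ + j

/-- **Row VGR** (values of differences of algebraic numbers). PROOF. `φ` makes `L` a `K`-algebra
(`letI := φ.toAlgebra`). `x`, `y` are algebraic, `x - y ∈ K⟮x, y⟯`, whose degree is at most
`natDegree p * natDegree q` (`x` has degree at most `natDegree p`, `y` over `K⟮x⟯` at most
`natDegree q`). So the minimal polynomial `P` of `z = x - y` has degree `D ≤ ..`, `P(z) = 0`, `z ≠ 0`: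
among the nonzero terms `φ(P_i) z^i` the largest norm is attained twice (ultrametric; a sum with a
unique largest term has its norm), for `i < j`, so `‖z‖^(j-i) = ‖φ P_i‖/‖φ P_j‖`, `0 < j - i ≤ D`. -/
def VgrStatement : Prop :=
  ∀ (K L : Type) [Field K] [NormedField L] [IsUltrametricDist L] (φ : K →+* L) (c : ℝ)
    (p q : K[X]) (x y : L), 0 < c → c < 1 → (∀ z : K, z ≠ 0 → ∃ k : ℤ, ‖φ z‖ = c ^ k) →
    p ≠ 0 → q ≠ 0 → (p.map φ).IsRoot x → (q.map φ).IsRoot y → x ≠ y →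
    ∃ (k : ℕ) (l : ℤ), 0 < k ∧ k ≤ p.natDegree * q.natDegree ∧ ‖x - y‖ ^ k = c ^ l

/-- **Row NSW** (the positions have small denominators; uses TND TCH VGR). PROOF. `r = ‖eta θ‖ =
‖θ 0 - θ 1‖²`. VGR for `θ 0, θ 1` (`p = q = f`): `‖θ 0 - θ 1‖^k = c^l`, `0 < k ≤ 25`; `l > 0` since
`‖θ 0 - θ 1‖ < 1`, and `c^(n k) ≤ ‖θ 0 - θ 1‖^(2k) = c^(2l)`, so `2 l ≤ n k ≤ 25 n`. Let `a` be a root of
`A.map φ` with `‖a - ctr θ‖ < 1`, `X = crd a (B a)`, `t = pos r X ∈ (0, 1)` (TCH), `z = a - ctr θ =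
(X + η/X)/2`, `‖X‖ = r^t`, `‖η/X‖ = r^(1-t)`. CASE `t = 1/2`: `2 ∣ m₁` (`2 ≤ 250 n`), `m₁ t ∈ ℤ`. CASE
`t ≠ 1/2`: `m = min t (1-t) < 1/2`, `‖z‖ = r^m > r^(1/2) = ‖θ 0 - ctr θ‖`, so `‖a - θ 0‖ = r^m`, `a ≠ θ 0`.
VGR for `a, θ 0` (`p = A`, `q = f`): `‖a - θ 0‖^k' = c^l'`, `0 < k' ≤ 10`. Logarithms: `log r = (2 l/k)
log c`, `m (2 l/k) = l'/k'`, so `2 l k' m = l' k ∈ ℤ`, `0 < 2 l k' ≤ 250 n`: `2 l k' ∣ m₁`, `m₁ m ∈ ℤ`,
`m₁ t ∈ ℤ`. Sum over the multiset `nz`. -/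
def NswStatement : Prop :=
  ∀ (K L : Type) [Field K] [NormedField L] [IsUltrametricDist L] [CompleteSpace L] (φ : K →+* L)
    (f A B : K[X]) (θ : Fin 5 → L) (s : ℕ → L) (c : ℝ) (n m₁ : ℕ), 0 < c → c < 1 →
    (∀ x : K, x ≠ 0 → ∃ k : ℤ, ‖φ x‖ = c ^ k) → Twin (f.map φ) θ → Sq (hh θ) s → 0 < n →
    c ^ n ≤ ‖θ 0 - θ 1‖ ^ 2 → (∀ q, 0 < q → q ≤ 250 * n → q ∣ m₁) → Mum f A B →
    A.natDegree ≤ 2 → (A.map φ).Splits →
    ∃ j : ℤ, (m₁ : ℝ) * ss θ s (A.map φ) (B.map φ) = j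

/-- **Row LPO** (STRONG; points which reduce to the line of a twin have a non-integral position; uses
TND TCH SZT.B.Pmu KDS.She). Write `e = θ 0`, `A' = A(x + e) = x² - s' x + p'`, `B' = B(x + e) = b₁ x + b₀'`,
`g = f(x + e)`: `u' = uni (shc f e) (kum f A B) = (1, s', p', k')`, `k' = b₁² - G`,
`G = s'³ - s' p' + g₄ s'² + g₃ s' + g₂` (definition of `kum`; or SHE). Hypothesis: `w p' < w (u' l)`,
`w k' < w (u' l)`, so `w p', w k' < M = max 1 (w s')`. Let `x₁, x₂` be the roots of `A'` (`Ω` is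
algebraically closed). CASE 1: `w s' ≥ 1`. Then one root has `w x₂ = w s' ≥ 1`, the other
`w x₁ = w p'/w s' < 1` (`w x₁ + .. `: `x₁ + x₂ = s'`, `x₁ x₂ = p'`). Only `e + x₁` is near (`‖ctr - e‖ <
1`): `ss = pos X₁ ∈ (0, 1)` (TCH): not an integer. CASE 2: `w s' < 1`: `w p' < 1`, `w k' < 1`, both roots
are near. `w (g₂ - h₀) < 1` with `h₀ = ∏_(k ≥ 2) (e - θ k)`-up-to-sign `= (hh θ).coeff 0` modulo the
maximal ideal, `h₀ = s(0)²`, `‖s 0‖ = 1`; so `w (b₁² - s(0)²) < 1`: `b₁ ≡ ± s(0)`. We treat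
`‖b₁ - s 0‖ < 1` (then `‖b₁ + s 0‖ = ‖2 s 0‖ = 1`) and show `ss ∈ (0, 1)`; the other sign gives
`ss ∈ (1, 2)` in the same way (exchange `X` and `η/X`). `z_i = x_i + e - ctr`, `y_i = B(e + x_i)`,
`S_i = pval s z_i`, `X_i = z_i + y_i/S_i`, `η/X_i = z_i - y_i/S_i`, `‖y_i‖ < 1`. (2a) `x₁ ≠ x₂`:
`y₁ - y₂ = b₁ (z₁ - z₂)`, `‖S₁ - S₂‖ ≤ ‖z₁ - z₂‖`;
`X₁ - X₂ = (z₁ - z₂)(1 + b₁/S₁) + y₂ (1/S₁ - 1/S₂)` has norm `‖z₁ - z₂‖`, and
`η/X₁ - η/X₂ = (z₁ - z₂)(1 - b₁/S₁) - y₂ (1/S₁ - 1/S₂)` has norm `< ‖z₁ - z₂‖`. As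
`η/X₁ - η/X₂ = -η (X₁ - X₂)/(X₁ X₂)`: `‖η‖ < ‖X₁ X₂‖`, `pos X₁ + pos X₂ < 1`. (2b) `x₁ = x₂`: `A = (x -
a)²`, `a = e + x₁` divides `B² - f` twice: `y = B(a) ≠ 0` (otherwise `(x - a)² ∣ f`, `θ` injective),
`2 y b₁ = f'(a)`. `W = y/S`, `z² - η = W²`, `y² = W² h(z)`, `f'(a) = 2 z h(z) + W² h'(z)`, so
`b₁ = S z/W + W h'(z)/(2 S)`; `‖b₁ - s 0‖ < 1` gives `‖z/W - 1‖ < 1`, so `‖z - W‖ < ‖W‖ = ‖z + W‖`, i.e.
`‖η/X‖ < ‖X‖`, `pos X < 1/2`, `ss = 2 pos X ∈ (0, 1)`. -/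
def LpoStatement : Prop :=
  ∀ (Ω L : Type) [Field Ω] [IsAlgClosed Ω] [NormedField L] [IsUltrametricDist L]
    [CompleteSpace L] (j : Ω →+* L) (w : AbsoluteValue Ω ℝ) (f : Polynomial Ω) (θ : Fin 5 → Ω)
    (s : ℕ → L), (∀ x, w x = ‖j x‖) → Twin (f.map j) (fun k => j (θ k)) →
    Sq (hh (fun k => j (θ k))) s → f.Monic → f.natDegree = 5 →
    ∀ (A B : Polynomial Ω) (l : Fin 4), Mum f A B → A.natDegree = 2 →
      w (uni (shc f (θ 0)) (kum f A B) 2) < w (uni (shc f (θ 0)) (kum f A B) l) →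
      w (uni (shc f (θ 0)) (kum f A B) 3) < w (uni (shc f (θ 0)) (kum f A B) l) →
      ∀ m : ℤ, ss (fun k => j (θ k)) s (A.map j) (B.map j) ≠ m

/-! ## Block E: the doubling without cancellation -/

/-- **Row RTC** (roots at a place without triple roots). PROOF. `f.map i = ∏ (X - C (θ k))`
(algebraically closed, monic), `θ` injective (squarefree, `IsSquarefree.map` / separable,
characteristic 0), `w (θ k) ≤ 1` (root of a monic integral polynomial). Three close roots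
`θ a, θ b, θ c`: `w (f'(θ a)) < 1` (product of four factors of value `≤ 1`, one `< 1`),
`w (f''(θ a)) < 1` (`f''(θ a) = 2 ∑` of products of three of the four factors `θ a - θ k`; each contains
`θ a - θ b` or `θ a - θ c`); evaluate the identity of `CubeFree` at `θ a`: `w 1 < 1`, contradiction.
So `w (θ a - θ b) < 1` implies `w (θ a - θ c) = 1`. Last part: `w (discr) = ∏_(pairs) w(..)²`
(DSR of SZT, or `discr` as a product) `< 1`, so there is a close pair; take the one with the smallest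
value; all pairs which contain one of its two roots have value 1, of the three remaining pairs at
most one is close and its value is `≥` the smallest one: `w (discr) ≥ w (θ a - θ b)^4`. -/
def RtcStatement : Prop :=
  ∀ (K Ω : Type) [Field K] [CharZero K] [Field Ω] [IsAlgClosed Ω] (i : K →+* Ω)
    (v : AbsoluteValue K ℝ) (w : AbsoluteValue Ω ℝ) (f : K[X]), IsNonarchimedean w →
    (∀ x, w (i x) = v x) → f.Monic → f.natDegree = 5 → Squarefree f → CubeFree v f →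
    v (discr f) < 1 →
    ∃ θ : Fin 5 → Ω, f.map i = ∏ k, (X - C (θ k)) ∧ Function.Injective θ ∧
      (∀ k, w (θ k) ≤ 1) ∧
      (∀ a b c, a ≠ b → a ≠ c → b ≠ c → w (θ a - θ b) < 1 → w (θ a - θ c) = 1) ∧
      ∃ a b, a ≠ b ∧ w (θ a - θ b) < 1 ∧ w (θ a - θ b) ^ 4 ≤ v (discr f)

/-- **Row QDI** (base points of the doubling, double root at 0). PROOF. `f₀ = f₁ = 0`. Identities
(`ring` after expanding `dup`): (1) `(u₃² + 2 f₂ u₀ u₃ - f₃ u₂² - 2 f₂ u₁ u₂)² = dup3 f u + f₂ dup0 f u`;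
(2) for `b` with `b³ + f₄ b² + f₃ b + f₂ = 0` and `h' = 3 b² + 2 f₄ b + f₃`:
`((u₃ - b u₂)² - h' u₂²)² = dup3 f u - b dup2 f u`. `f = x² h`, `h = (x-b)(x-c)(x-d)`, `b, c, d ≠ 0` not
all equal. So `(u₃ - b u₂)² = (b-c)(b-d) u₂²` and the same for `c`, `d`. If `u₂ = 0` then `u₃ = 0`. Let
`u₂ ≠ 0`, `t = u₃/u₂`: `(t-b)² = (b-c)(b-d)` etc. CASE `b, c, d` different: the first two give
`(c-b)(2t-b-c) = (b-c)(b+c-2d)`, so `t = d`; in the same way `t = c`: contradiction. CASE two are equal,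
`b = c ≠ d`: `t = b`, `u₃ = b u₂`; (1) with `f₂ = - b² d`, `f₃ = b² + 2 b d`, `f₄ = -(2b + d)`: the base is
`-2 b d u₂ (u₂ - b u₁ + b² u₀)`, so `T = u₂ - b u₁ + b² u₀ = 0` (this is `uni (shc f b) u 2`), and
`uni (shc f b) u 3 = u₃ - 2b u₂ + b² u₁ - (4b³ + 2 f₄ b² + f₃ b) u₀ = (u₃ - b u₂) - b T - b h'(b) u₀ = 0`,
`h'(b) = 0`. -/
def QdiStatement : Prop :=
  ∀ (k : Type) [Field k] (f : k[X]) (u : Fin 4 → k), (2 : k) ≠ 0 → f.Monic → f.natDegree = 5 →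
    f.coeff 0 = 0 → f.coeff 1 = 0 → f.Splits → (∀ x : k, ¬ (X - C x) ^ 3 ∣ f) →
    (∀ l, dup f u l = 0) →
    (u 2 = 0 ∧ u 3 = 0) ∨ ∃ b : k, b ≠ 0 ∧ (X - C b) ^ 2 ∣ f ∧ uni (shc f b) u 2 = 0 ∧
      uni (shc f b) u 3 = 0

/-- **Row BAS** (cancellation happens only on the lines of the twins; uses QDI, KDS.She). PROOF. Let
`M = max w (u m) > 0` (`u ≠ 0` by the hypothesis), attained at `m₁`; replace `u` by `u/u m₁` (`quart`,
`dup` are homogeneous of degree 4, `uni` of degree 1): `w (u l) ≤ 1`, one is 1, `w (dup f u l) < 1`.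
`O` = the valuation ring `{w ≤ 1}` (`ValuationSubring`, or the local ring), `k` its residue field,
`(2 : k) ≠ 0`; `θ k, u l ∈ O` with images `θ̄, ū ≠ 0`, `f̄ = ∏ (x - θ̄ k)`: `dup f̄ ū = 0`,
`quart f̄ ū = 0`. `a, b` the close pair: `θ̄ a = θ̄ b = e`. `g = f̄(x + e)`, `u' = uni (shc f̄ e) ū`: SHE:
`dup g u' = uni (..) (dup f̄ ū) = 0`, `g₀ = g₁ = 0`, no triple root. QDI: (i) `u' 2 = u' 3 = 0`: the pair
`a, b` has the required property: with `l` such that `w (uni (shc f (θ a)) u l) = 1` (it exists,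
`ū ≠ 0` and `uni` is invertible) the coordinates 2 and 3 have `w < 1`. (ii) a second double root
`e + b'` of `f̄`: `θ̄ c = θ̄ d = e + b'`, and `uni (shc g b') u' = uni (shc f̄ (e + b')) ū` (composition of
shifts: `shc` of `g` at `b'` after `shc` of `f̄` at `e`; `ring` with `g₄ = f₄ + 5 e`,
`g₃ = f₃ + 4 e f₄ + 10 e²`): the pair `c, d`. -/
def BasStatement : Prop :=
  ∀ (E : Type) [Field E] (w : AbsoluteValue E ℝ) (θ : Fin 5 → E) (u : Fin 4 → E) (m₁ : Fin 4),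
    IsNonarchimedean w → w 2 = 1 → (∀ k, w (θ k) ≤ 1) →
    (∀ a b c, a ≠ b → a ≠ c → b ≠ c → w (θ a - θ b) < 1 → w (θ a - θ c) = 1) →
    (∃ a b, a ≠ b ∧ w (θ a - θ b) < 1) → quart (∏ k, (X - C (θ k))) u = 0 →
    (∀ l, w (dup (∏ k, (X - C (θ k))) u l) < w (u m₁) ^ 4) →
    ∃ a b, a ≠ b ∧ w (θ a - θ b) < 1 ∧ ∃ l,
      w (uni (shc (∏ k, (X - C (θ k))) (θ a)) u 2) <
        w (uni (shc (∏ k, (X - C (θ k))) (θ a)) u l) ∧
      w (uni (shc (∏ k, (X - C (θ k))) (θ a)) u 3) <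
        w (uni (shc (∏ k, (X - C (θ k))) (θ a)) u l)

/-- **Row NCD** (iteration). PROOF. Downward: if `w (u (a+1) l) ≤ exp(L (a+1) + C')` for all `l`, then
`w (u a m)^4 ≤ w (dup f (u a) l) = w (lam a) w (u (a+1) l) ≤ exp(4 L a + C')`, so
`w (u a m) ≤ exp(L a + C'/4)`. Induction on `n`. -/
def NcdStatement : Prop :=
  ∀ (E : Type) [Field E] (w : AbsoluteValue E ℝ) (f : E[X]) (n : ℕ) (u : ℕ → Fin 4 → E)
    (lam : ℕ → E) (L : ℕ → ℝ) (C' : ℝ),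
    (∀ a < n, lam a ≠ 0 ∧ dup f (u a) = lam a • u (a + 1) ∧
      L (a + 1) = 4 * L a - Real.log (w (lam a))) →
    (∀ a < n, ∀ m, ∃ l, w (u a m) ^ 4 ≤ w (dup f (u a) l)) →
    (∀ l, w (u n l) ≤ Real.exp (L n + C')) →
    ∀ l, w (u 0 l) ≤ Real.exp (L 0 + C' / 4 ^ n)

/-- **Row PLG** (a general bound for the Kummer coordinates; uses KDT.Lfa KDT.Gmp SZT.AOut SZT.Dsr
SZT.B.Cpl). PROOF. Copy of the proof of KDT PLF (`Helper25_KDT/PLF.lean`) with `κ = 1`: for the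
exponents `e = Pi.single l 1`: `w (uni (adc (f.map i) (θ k) (θ l')) u l) ≤ exp(Lv - (1/2) log v(discr)
- c2 log v(2))`, and `log v(2) = 0`. The entries of `adc` are integral (`w (θ k) ≤ 1`, the coefficients
of `f` are integral), so `u l` itself (invert the unipotent change: `u 0`, `u 1 = u' 1 - c 0 u 0`, ..)
has the same bound (`w` nonarchimedean); `w (i x) = v x`. -/
def PlgStatement : Prop :=
  ∀ (K : Type) [Field K] [NumberField K] (v : FinitePlace K) (f : K[X]),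
    f.Monic → f.natDegree = 5 → Squarefree f → (∀ n, v (f.coeff n) ≤ 1) → v 2 = 1 →
    ∀ (A B U W : K[X]) (M : ℕ), VG f A B → Gen f A B U W M → ∀ l : Fin 4,
      v (kum f A B l) ≤ Real.exp (Lv v f A U M - (1 / 2) * Real.log (v (discr f)))

/-! ## Block G: assembly -/

/-- **Row PNE** (STRONG; node data at a place without triple roots; uses RTC TKA NSW LPO BAS NCD PLG
KDS.Dpb KDS.Dvb KDT.Kqu KDT.Gmp SZT.B.Cpl SZT.B.Sqr). PROOF. CPL for `v`: `Ω`, `L`, `i`, `j`;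
`w x = ‖j x‖` (see `Helper94_KDS/PNB.lean`, `Helper7_KDT/PLN.lean`). RTC: `θ`, the pair `a, b` with
`w (θ a - θ b)^4 ≤ v (discr f)`. `θ₀ = θ a`, `g = (f.map i).comp (X + C θ₀)`: `g₀ = 0`,
`g₁ = f'(θ₀) = ∏_(k ≠ a) (θ a - θ k)`, `w g₁ ≤ w (θ a - θ b) ≤ exp((1/4) log v (discr f))` which is
`exp(-δ/2)` for `δ = -(1/2) log v (discr f) > 0`; all coefficients of `g` are integral. BOUND: put
`u a = i ∘ kum f (A a) (B a)`, `L a = Lv v f (A a) (U a) M`, `lam a = i (dup f (kum f (A a) (B a)) 0)` for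
`a ≤ t`. The class of `(A (a+1), B (a+1))` is that of the square of `(A a, B a)`: DPB (`Good` from `VG`),
DVB: the hypotheses of NCD (see `Helper26_KDS/GLN.lean`); `C' = -(1/2) log v (discr f)` by PLG. NO
CANCELLATION: otherwise for some `a < t` there is `m` with `w (dup l) < w (u a m)^4` for all `l`; BAS
(`quart = 0`: KQU) gives a close pair `a', b'` and `l`. Choose a permutation `σ` of `Fin 5` with
`σ 0 = a'`, `σ 1 = b'`: `Twin ((f.map i).map j) (j ∘ θ ∘ σ)` (the conditions of RTC); SQR gives `s`;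
TKA (`φ = j.comp i`): `ss (A a, B a) = m₀ 2^a k s₁ + integer`; NSW for `(A₁, B₁)`, `c = Nv⁻¹`
(`v (discr f) = c^n`, and `c^n ≤ w(θ a' - θ b')²` because `discr` is the product of all
`w(..)²`, all `≤ 1`; the value group of a finite place is generated by `Nv⁻¹`, see
`Helper82_SZT/BOT.lean`): `m₀ s₁ ∈ ℤ`. So `ss (A a, B a) ∈ ℤ`, against LPO (with `f.map i`, images of
`A a, B a`: GMP, KQU second part). NCD: `w (u 0 l) ≤ exp(L 0 + C'/4^t)`. Finally the shift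
`uni (shc (f.map i) θ₀)` has integral entries. -/
def PneStatement : Prop :=
  ∀ (K : Type) [Field K] [NumberField K] (v : FinitePlace K) (f : K[X]) (n m₀ : ℕ),
    f.Monic → f.natDegree = 5 → Squarefree f → CubeFree v.val f → 0 < n →
    v (discr f) * (Ideal.absNorm v.maximalIdeal.asIdeal : ℝ) ^ n = 1 →
    (∀ q, 0 < q → q ≤ 250 * n → q ∣ m₀) → ∀ I : Ideal (Q K f), I ≠ ⊥ →
    ∃ (Ω : Type) (_ : Field Ω) (w : AbsoluteValue Ω ℝ) (i : K →+* Ω) (θ : Ω),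
      (∀ x, w (i x) = v x) ∧ (f.map i).IsRoot θ ∧
      NdC w ((f.map i).comp (X + C θ)) (-(1 / 2) * Real.log (v (discr f))) ∧
      ∀ (t k M : ℕ) (A B U W : ℕ → K[X]),
        (∀ a ≤ t, VG f (A a) (B a) ∧ Gen f (A a) (B a) (U a) (W a) M ∧
          SameCl (MI f (A a) (B a)) (I ^ (m₀ * (2 ^ a * k)))) →
        ∀ l : Fin 4, w (uni (shc (f.map i) θ) (fun l => i (kum f (A 0) (B 0) l)) l) ≤
          Real.exp (Lv v f (A 0) (U 0) M - (1 / 2) * Real.log (v (discr f)) / 4 ^ t)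

/-- **Row GLE** (the determinant at such a place; uses PNE KDS.Ndt KDS.Unt KDS.She KDS.Dpb KDS.Dvb
KDT.Kqu; see `Helper26_KDS/GLN.lean`). PROOF. As GLN: `u j a = uni c (i ∘ kum f (A j a) (B j a))`,
`c = shc (f.map i) θ`, `g` the shifted polynomial, `δ = -(1/2) log v (discr f)`. NDT with
`L j a = Lv v f (A j a) (U j a) M + 4^a ϑ`, `ϑ = -(1/2) log v (discr f)/4^i` (then
`L j (a+1) = 4 L j a - log w (lam j a)` still holds, and `w (u j 0 l) ≤ exp(L j 0)` is PNE with `t = i`).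
`∑_j ∑_(a<i) 2 4^a ϑ = 10^i lev i ϑ ≤ 10^i (2/3) 4^i ϑ = -(10^i/3) log v (discr f)`. -/
def GleStatement : Prop :=
  ∀ (K : Type) [Field K] [NumberField K] (v : FinitePlace K) (f : K[X]) (n m₀ i M : ℕ)
    (I : Ideal (Q K f)) (A B U W : QI i → ℕ → K[X]) (k : QI i → ℕ) (Γ : ℝ), f.Monic →
    f.natDegree = 5 → Squarefree f → CubeFree v.val f → 0 < n →
    v (discr f) * (Ideal.absNorm v.maximalIdeal.asIdeal : ℝ) ^ n = 1 → I ≠ ⊥ →
    (∀ q, 0 < q → q ≤ 250 * n → q ∣ m₀) → Gain i Γ →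
    (∀ j, ∀ a ≤ i, VG f (A j a) (B j a) ∧ Gen f (A j a) (B j a) (U j a) (W j a) M ∧
      SameCl (MI f (A j a) (B j a)) (I ^ (m₀ * (2 ^ a * k j)))) →
    (Matrix.of fun (j q : QI i) => ∏ a : Fin i, mon (q a).1 (kum f (A j a) (B j a))).det ≠ 0 →
    Real.log (v (Matrix.of fun (j q : QI i) =>
        ∏ a : Fin i, mon (q a).1 (kum f (A j a) (B j a))).det) ≤
      ∑ j, ∑ a : Fin i, 2 * Lv v f (A j a) (U j a) M +
        (Γ / 2 - 10 ^ i / 3) * Real.log (v (discr f))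

/-- **Row GLT** (the main inequality; uses KDS.Glf KDS.Gli GLE SZT.Pfs SZT.Qvn SZT.Dsh; see
`Helper8_KDS/GLS.lean`). PROOF. As GLS. Let `S' = {v ∈ S : n_v ≤ n₀}` (`n_v ≤ n₀` iff not
`v(discr f) Nv^n₀ < 1`). All finite places outside `S'` (also those of `S` with `n_v > n₀`) are estimated
by GLF, the places of `S'` by GLE (`m₀` is divisible by all `q ≤ 250 n₀`). Product formula, PFS, DSH:
`0 ≤ i 10^i ∑_(S') log v(discr) + (Γ/2 - 10^i/3) ∑_(S') log v(discr) + 17 i 10^i lH f + C [K:ℚ]`, and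
`i 10^i ≥ 10^i/3` (`i ≥ 1`). -/
def GltStatement : Prop :=
  ∀ i : ℕ, 1 ≤ i → ∃ Cc : ℝ, 0 ≤ Cc ∧ ∀ (K : Type) [Field K] [NumberField K] (f : K[X])
    (m₀ n₀ M : ℕ) (I : Ideal (Q K f)) (A B U W : QI i → ℕ → K[X]) (k : QI i → ℕ) (Γ : ℝ)
    (S : Finset (FinitePlace K)), f.Monic → f.natDegree = 5 → Squarefree f →
    (∀ n, IsIntegral ℤ (f.coeff n)) → I ≠ ⊥ → (∀ q, 0 < q → q ≤ 250 * n₀ → q ∣ m₀) → Gain i Γ →
    (∀ v ∈ S, CubeFree v.val f ∧ v (discr f) < 1) →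
    (∀ j, ∀ a ≤ i, VG f (A j a) (B j a) ∧ Gen f (A j a) (B j a) (U j a) (W j a) M ∧
      SameCl (MI f (A j a) (B j a)) (I ^ (m₀ * (2 ^ a * k j)))) →
    (Matrix.of fun (j q : QI i) => ∏ a : Fin i, mon (q a).1 (kum f (A j a) (B j a))).det ≠ 0 →
    Γ / 2 * (- ∑ v ∈ S with
        ¬ v (discr f) * (Ideal.absNorm v.maximalIdeal.asIdeal : ℝ) ^ n₀ < 1,
          Real.log (v (discr f))) ≤ 17 * i * 10 ^ i * lH f + Cc * Module.finrank ℚ K

/-- **Row KDF** (the theorem; uses GLT KDS.Cns KDS.Mvp KDS.Ins KDS.Exc KDS.Dpb KDT.Lmn KDT.Zero SZT.Pel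
SZT.Rex SZT.Dsh SZT.Qvn SZT.Gpr UBT.DedStmt). PROOF. Copy of KSF (`Helper71_KDS/KSF.lean`) with
`m₀ = (250 n₀)!`, CNS with `C = 72/ε` instead of `36/ε`, and GLT instead of GLS (`Γ/2` instead of `Γ`). -/
def KdfStatement : Prop := KddStatement

end Pool.Agent.KDD
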